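import Pool.Agent.Helper17.SLD.Goals

/-!
# Project SLD, packet CONJ

Complex conjugation of an algebraic closure of `ℚ` embedded in `ℂ`.
-/

namespace Pool.Agent.Helper17.SLD.PkCONJ

open Pool.Agent.Helper17.SLD NumberField

universe u

/-- The conjugate of a value of `ι` is a value of `ι`. -/
theorem exists_eq_conj (Ω : Type u) [Field Ω] [CharZero Ω] [IsAlgClosed Ω]
    [Algebra.IsAlgebraic ℚ Ω] (ι : Ω →+* ℂ) (x : Ω) :
    ∃ y, ι y = ComplexEmbedding.conjugate ι x := by
  let _ : Algebra Ω ℂ := ι.toAlgebra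
  have hx : IsIntegral ℚ x := (Algebra.IsAlgebraic.isAlgebraic (R := ℚ) x).isIntegral
  have h1 : IsIntegral ℚ (ComplexEmbedding.conjugate ι x) :=
    hx.map (ComplexEmbedding.conjugate ι).toRatAlgHom
  have h2 : IsIntegral Ω (ComplexEmbedding.conjugate ι x) := h1.tower_top
  have h3 : (minpoly Ω (ComplexEmbedding.conjugate ι x)).degree = 1 :=
    IsAlgClosed.degree_eq_one_of_irreducible Ω (minpoly.irreducible h2)
  obtain ⟨y, hy⟩ := minpoly.mem_range_of_degree_eq_one Ω _ h3
  exact ⟨y, hy⟩

theorem thm : S_CONJ.{u} := by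
  intro Ω _ _ _ _ ι
  choose g hg using exists_eq_conj Ω ι
  have hinj : Function.Injective ι := ι.injective
  refine ⟨{ toFun := g, map_one' := ?_, map_mul' := ?_, map_zero' := ?_, map_add' := ?_ }, ?_⟩
  · exact hinj (by rw [hg, map_one, map_one])
  · intro a b
    exact hinj (by rw [map_mul, hg, hg, hg, map_mul])
  · exact hinj (by rw [hg, map_zero, map_zero])
  · intro a b
    exact hinj (by rw [map_add, hg, hg, hg, map_add])
  · exact RingHom.ext hg

end Pool.Agent.Helper17.SLD.PkCONJ
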